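import Pool.Agent.VB.G

/-!
# Structures whose primitive parts are linear orders with monotone relations: definitions
-/

set_option autoImplicit false
set_option linter.unusedSectionVars false
set_option linter.unusedVariables false

namespace Pool.Agent.MOP

open Set Pool.Agent.Helper5 Pool.Agent.Helper5.DU Pool.Agent.Helper6.Str
  Pool.Agent.Helper79.VC Pool.Agent.Helper97.VC Pool.Agent.Helper97.MD Pool.Agent.Helper6.VC
  Pool.Agent.Helper97.LO

variable {L : FirstOrder.Language.{0, 0}} {M N P : Type}

/-- the relation symbols of the language with the binary symbols `R` -/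
def binR (R : Type) : ℕ → Type
  | 2 => R
  | _ => Empty

/-- the language with the binary symbols `R` -/
def binL (R : Type) : FirstOrder.Language.{0, 0} where
  Functions _ := Empty
  Relations := binR R

instance (R : Type) (n : ℕ) : IsEmpty ((binL R).Functions n) := inferInstanceAs (IsEmpty Empty)

/-- the relations of `offd` -/
def offdRel {R : Type} (τ : M → M → Set R × Set R) (P : Set M) :
    ∀ n : ℕ, binR R n → (Fin n → P) → Prop
  | 2, r, v => v 0 ≠ v 1 ∧ r ∈ (τ (v 0) (v 1)).1
  | 0, r, _ => nomatch r
  | 1, r, _ => nomatch r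
  | (_ + 3), r, _ => nomatch r

/-- The structure on `P` with only the binary relations between different elements. -/
def offd {R : Type} (τ : M → M → Set R × Set R) (P : Set M) : (binL R).Structure P where
  funMap f := nomatch f
  RelMap {n} r v := offdRel τ P n r v

/-- A scheme: formulas of `L_{omega_1, omega}` with `n` parameters, in the binary symbols `R`. The
formulas `D j` have two more variables, the formulas `U j` one more variable. -/
structure Sch (R : Type) where
  n : ℕ
  D : ℕ → FmI (binL R) (n + 1 + 1)
  U : ℕ → FmI (binL R) (n + 1)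

/-- the relation defined by `D j` -/
def Sch.rel {R : Type} (θ : Sch R) (τ : M → M → Set R × Set R) (P : Set M) (c : Fin θ.n → P)
    (j : ℕ) (x y : P) : Prop :=
  Sat (offd τ P) (θ.D j) (Fin.snoc (Fin.snoc c x : Fin (θ.n + 1) → P) y : Fin (θ.n + 1 + 1) → P)

/-- the set defined by `U j` -/
def Sch.un {R : Type} (θ : Sch R) (τ : M → M → Set R × Set R) (P : Set M) (c : Fin θ.n → P)
    (j : ℕ) (x : P) : Prop :=
  Sat (offd τ P) (θ.U j) (Fin.snoc c x : Fin (θ.n + 1) → P)

/-- `D 0` is a linear order on the set `P`, the relations `D j` are monotone, and together with the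
sets `U j` they determine the binary relations between different elements of `P`. -/
structure Sch.MonAt {R : Type} (θ : Sch R) (τ : M → M → Set R × Set R) (P : Set M)
    (c : Fin θ.n → P) : Prop where
  refl : ∀ x, θ.rel τ P c 0 x x
  anti : ∀ x y, θ.rel τ P c 0 x y → θ.rel τ P c 0 y x → x = y
  trans : ∀ x y z, θ.rel τ P c 0 x y → θ.rel τ P c 0 y z → θ.rel τ P c 0 x z
  total : ∀ x y, θ.rel τ P c 0 x y ∨ θ.rel τ P c 0 y x
  mono : ∀ j x' x y y', θ.rel τ P c 0 x' x → θ.rel τ P c j x y → θ.rel τ P c 0 y y' →
    θ.rel τ P c j x' y'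
  det : ∀ x y x' y', x ≠ y → x' ≠ y' → (∀ j, θ.un τ P c j x ↔ θ.un τ P c j x') →
    (∀ j, θ.un τ P c j y ↔ θ.un τ P c j y') → (∀ j, θ.rel τ P c j x y ↔ θ.rel τ P c j x' y') →
    (∀ j, θ.rel τ P c j y x ↔ θ.rel τ P c j y' x') → τ x y = τ x' y'

/-- `P` is a linear order with monotone relations, by the scheme `θ` with suitable parameters
in `P` -/
def MonOver {R : Type} (τ : M → M → Set R × Set R) (θ : Sch R) (P : Set M) : Prop :=
  ∃ c : Fin θ.n → P, θ.MonAt τ P c

/-- The infinite primitive sets are sparse up to a background type, or linear orders with monotone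
relations by one of the schemes of the list `Θ`. -/
def MonPrim (Θ : ℕ → Sch (L.Relations 2)) (S : L.Structure M) : Prop :=
  ∀ P : Set M, P.Infinite → IsPrim (bt S) P →
    (∃ b : Set (L.Relations 2), ¬ HasTK (gr S P b)) ∨ ∃ t, MonOver (bt S) (Θ t) P

end Pool.Agent.MOP
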