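import Pool.Agent.MOP.FNLm

/-!
# MOP: linear orders with convex relations with monotone ends satisfy the hypothesis
-/

set_option autoImplicit false
set_option linter.unusedSectionVars false
set_option linter.unusedVariables false

namespace Pool.Agent.MOP

open Set Pool.Agent.Helper5 Pool.Agent.Helper5.DU Pool.Agent.Helper6.Str
  Pool.Agent.Helper79.VC Pool.Agent.Helper97.VC Pool.Agent.Helper97.MD Pool.Agent.Helper6.VC
  Pool.Agent.Helper97.LO Pool.Agent.MON

variable {L : FirstOrder.Language.{0, 0}} {M N P : Type}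

namespace COR

/-- conjunction -/
def fAnd {L' : FirstOrder.Language.{0, 0}} {n : ℕ} (φ ψ : FmI L' n) : FmI L' n :=
  .conj fun k => if k = 0 then φ else ψ

/-- disjunction -/
def fOr {L' : FirstOrder.Language.{0, 0}} {n : ℕ} (φ ψ : FmI L' n) : FmI L' n :=
  .neg (fAnd (.neg φ) (.neg ψ))

theorem sat_and {L' : FirstOrder.Language.{0, 0}} {S : L'.Structure M} {n : ℕ}
    (φ ψ : FmI L' n) (v : Fin n → M) : Sat S (fAnd φ ψ) v ↔ Sat S φ v ∧ Sat S ψ v := by
  constructor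
  · intro h
    exact ⟨h 0, h 1⟩
  · rintro ⟨h1, h2⟩ k
    show Sat S (if k = 0 then φ else ψ) v
    split
    · exact h1
    · exact h2

theorem sat_or {L' : FirstOrder.Language.{0, 0}} {S : L'.Structure M} {n : ℕ}
    (φ ψ : FmI L' n) (v : Fin n → M) : Sat S (fOr φ ψ) v ↔ Sat S φ v ∨ Sat S ψ v := by
  show ¬ Sat S (fAnd (.neg φ) (.neg ψ)) v ↔ _
  rw [sat_and]
  show ¬ (¬ Sat S φ v ∧ ¬ Sat S ψ v) ↔ _
  tauto

/-- the symbol `R` of `binL` -/
def bs {A : Type} (r : A) : (binL A).Relations 2 := r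

/-- a binary atomic formula -/
def at2 {A : Type} {n : ℕ} (r : A) (i j : Fin n) : FmI (binL A) n := .rel (bs r) ![i, j]

theorem sat_at2 {A : Type} {n : ℕ} (τ : M → M → Set A × Set A) (P : Set M) (r : A)
    (i j : Fin n) (v : Fin n → P) :
    Sat (offd τ P) (at2 r i j) v ↔ v i ≠ v j ∧ r ∈ (τ (v i) (v j)).1 := Iff.rfl

/-- the symbol of the order -/
def ls : LT.Relations 2 := (none : Option ℕ)

/-- the other symbols -/
def rs (k : ℕ) : LT.Relations 2 := (some k : Option ℕ)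

/-- the order -/
def leF {n : ℕ} (i j : Fin n) : FmI (binL (LT.Relations 2)) n := fOr (.eq i j) (at2 ls i j)

/-- lower ends -/
def dA (k : ℕ) : FmI (binL (LT.Relations 2)) 2 :=
  .ex (.ex (fAnd (leF 0 2) (fAnd (leF 3 1) (at2 (rs k) 2 3))))

/-- upper ends -/
def dB (k : ℕ) : FmI (binL (LT.Relations 2)) 2 :=
  .neg (.ex (.ex (fAnd (leF 2 0) (fAnd (leF 1 3) (at2 (rs k) 2 3)))))

/-- the formulas of the scheme -/
def dF : ℕ → FmI (binL (LT.Relations 2)) 2
  | 0 => leF 0 1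
  | k + 1 => if k % 2 = 0 then dA (k / 2) else dB (k / 2)

theorem dF_a (k : ℕ) : dF (2 * k + 1) = dA k := by
  have e : (2 * k) % 2 = 0 := by omega
  have e' : (2 * k) / 2 = k := by omega
  show (if (2 * k) % 2 = 0 then dA ((2 * k) / 2) else dB ((2 * k) / 2)) = _
  rw [if_pos e, e']

theorem dF_b (k : ℕ) : dF (2 * k + 2) = dB k := by
  have e : ¬ (2 * k + 1) % 2 = 0 := by omega
  have e' : (2 * k + 1) / 2 = k := by omega
  show (if (2 * k + 1) % 2 = 0 then dA ((2 * k + 1) / 2) else dB ((2 * k + 1) / 2)) = _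
  rw [if_neg e, e']

/-- the scheme -/
def sch : Sch (LT.Relations 2) where
  n := 0
  D := dF
  U := fun k => .ex (at2 (rs k) 0 1)

section

variable {lam : FmI L 2} {R : ℕ → FmI L 2} {U : ℕ → FmI L 1} {S : L.Structure M} {P : Set M}
  (h : MonDef lam R U S)

include h

theorem sat_le {n : ℕ} (i j : Fin n) (v : Fin n → P) :
    Sat (offd (bt (theta lam R U S)) P) (leF i j) v ↔ rl2 S lam (v i) (v j) := by
  unfold leF
  rw [sat_or, sat_at2]
  constructor
  · rintro (h1 | ⟨-, h1⟩)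
    · have h2 : v i = v j := h1
      rw [h2]
      exact h.refl _
    · exact h1
  · intro h1
    by_cases h2 : v i = v j
    · exact Or.inl h2
    · exact Or.inr ⟨h2, h1⟩

/-- lower ends -/
def e1 (S : L.Structure M) (lam : FmI L 2) (φ : FmI L 2) (P : Set M) (x y : P) : Prop :=
  ∃ s t : P, rl2 S lam x s ∧ rl2 S lam t y ∧ s ≠ t ∧ rl2 S φ s t

/-- upper ends -/
def e2 (S : L.Structure M) (lam : FmI L 2) (φ : FmI L 2) (P : Set M) (x y : P) : Prop :=
  ¬ ∃ s t : P, rl2 S lam s x ∧ rl2 S lam y t ∧ s ≠ t ∧ rl2 S φ s t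

theorem rel0 (c : Fin 0 → P) (x y : P) :
    sch.rel (bt (theta lam R U S)) P c 0 x y ↔ rl2 S lam x y := by
  unfold Sch.rel
  exact sat_le h _ _ _

theorem relA (c : Fin 0 → P) (k : ℕ) (x y : P) :
    sch.rel (bt (theta lam R U S)) P c (2 * k + 1) x y ↔ e1 S lam (R k) P x y := by
  unfold Sch.rel
  show Sat _ (dF (2 * k + 1)) _ ↔ _
  rw [dF_a]
  unfold e1 dA
  refine exists_congr fun s => exists_congr fun t => ?_
  rw [sat_and, sat_and, sat_le h, sat_le h, sat_at2]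
  exact Iff.rfl

theorem relB (c : Fin 0 → P) (k : ℕ) (x y : P) :
    sch.rel (bt (theta lam R U S)) P c (2 * k + 2) x y ↔ e2 S lam (R k) P x y := by
  unfold Sch.rel
  show Sat _ (dF (2 * k + 2)) _ ↔ _
  rw [dF_b]
  unfold e2 dB
  refine not_congr (exists_congr fun s => exists_congr fun t => ?_)
  rw [sat_and, sat_and, sat_le h, sat_le h, sat_at2]
  exact Iff.rfl

theorem unA (c : Fin 0 → P) (k : ℕ) (x : P) :
    sch.un (bt (theta lam R U S)) P c k x ↔ ∃ y : P, x ≠ y ∧ rl2 S (R k) x y := Iff.rfl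

theorem key (k : ℕ) (x y : P) (hne : x ≠ y) : rl2 S (R k) x y ↔
    (∃ y : P, x ≠ y ∧ rl2 S (R k) x y) ∧ e1 S lam (R k) P x y ∧ ¬ e2 S lam (R k) P x y := by
  constructor
  · intro h1
    refine ⟨⟨y, hne, h1⟩, ⟨x, y, h.refl _, h.refl _, hne, h1⟩, fun h2 => h2 ?_⟩
    exact ⟨x, y, h.refl _, h.refl _, hne, h1⟩
  · rintro ⟨⟨y0, -, hy0⟩, ⟨s, t, hs, ht, -, h1⟩, h2⟩
    obtain ⟨s', t', hs', ht', -, h3⟩ := not_not.mp h2
    refine (convMono_iff (h.conv k) h.refl h.trans ⟨_, hy0⟩ y).mpr ?_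
    exact ⟨⟨s, hs, t, ht, h1⟩, fun h4 => h4 ⟨s', hs', t', ht', h3⟩⟩

theorem monAt (c : Fin 0 → P) : sch.MonAt (bt (theta lam R U S)) P c where
  refl x := (rel0 h c x x).mpr (h.refl _)
  anti x y h1 h2 := Subtype.ext (h.anti _ _ ((rel0 h c x y).mp h1) ((rel0 h c y x).mp h2))
  trans x y z h1 h2 := (rel0 h c x z).mpr
    (h.trans _ _ _ ((rel0 h c x y).mp h1) ((rel0 h c y z).mp h2))
  total x y := (h.total x y).imp (rel0 h c x y).mpr (rel0 h c y x).mpr
  mono j x' x y y' h1 h2 h3 := by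
    rw [rel0 h] at h1 h3
    rcases j with _ | j
    · rw [rel0 h] at h2 ⊢
      exact h.trans _ _ _ h1 (h.trans _ _ _ h2 h3)
    rcases Nat.even_or_odd' j with ⟨k, rfl | rfl⟩
    · rw [relA h] at h2 ⊢
      obtain ⟨s, t, h4, h5, h6⟩ := h2
      exact ⟨s, t, h.trans _ _ _ h1 h4, h.trans _ _ _ h5 h3, h6⟩
    · rw [relB h] at h2 ⊢
      rintro ⟨s, t, h4, h5, h6⟩
      exact h2 ⟨s, t, h.trans _ _ _ h4 h1, h.trans _ _ _ h3 h5, h6⟩
  det x y x' y' hne hne' hx hy h1 h2 := by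
    have k1 : ∀ k, rl2 S (R k) x y ↔ rl2 S (R k) x' y' := by
      intro k
      rw [key h k x y hne, key h k x' y' hne', ← unA h c, ← unA h c, ← relA h c, ← relA h c,
        ← relB h c, ← relB h c, hx k, h1 (2 * k + 1), h1 (2 * k + 2)]
    have k2 : ∀ k, rl2 S (R k) y x ↔ rl2 S (R k) y' x' := by
      intro k
      rw [key h k y x hne.symm, key h k y' x' hne'.symm, ← unA h c, ← unA h c, ← relA h c,
        ← relA h c, ← relB h c, ← relB h c, hy k, h2 (2 * k + 1), h2 (2 * k + 2)]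
    have k3 : rl2 S lam x y ↔ rl2 S lam x' y' := by
      rw [← rel0 h c, ← rel0 h c]
      exact h1 0
    have k4 : rl2 S lam y x ↔ rl2 S lam y' x' := by
      rw [← rel0 h c, ← rel0 h c]
      exact h2 0
    refine Prod.ext ?_ ?_
    · ext r
      match r with
      | none => exact k3
      | some k => exact k1 k
    · ext r
      match r with
      | none => exact k4
      | some k => exact k2 k

end

end COR

/-- Linear orders with convex relations with monotone ends satisfy the hypothesis. -/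
theorem monPrim_of_monDef {lam : FmI L 2} {R : ℕ → FmI L 2} {U : ℕ → FmI L 1}
    {S : L.Structure M} (h : MonDef lam R U S) :
    AtomDet lam R U S ∧ MonPrim (fun _ => COR.sch) (theta lam R U S) :=
  ⟨h.atom, fun P _ _ => Or.inr ⟨0, ⟨fun i => i.elim0, COR.monAt h _⟩⟩⟩

end Pool.Agent.MOP
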