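import Pool.Agent.MOP.Defs
import Pool.Agent.MON.FINt
import Pool.Agent.VCw.CMPc
import Pool.Agent.Helper79.VCM.SP

/-!
# Structures whose primitive parts are linear orders with monotone relations: reflection
-/

set_option autoImplicit false
set_option linter.unusedSectionVars false
set_option linter.unusedVariables false

namespace Pool.Agent.MOP

open Set Pool.Agent.Helper5 Pool.Agent.Helper5.DU Pool.Agent.Helper6.Str
  Pool.Agent.Helper79.VC Pool.Agent.Helper97.VC Pool.Agent.Helper97.MD Pool.Agent.Helper6.VC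
  Pool.Agent.Helper97.LO Pool.Agent.Helper79.VCM Pool.Agent.MON

/-! ### Skolem witnesses -/

section sk

variable {L : FirstOrder.Language.{0, 0}} {Q Q' : Type}

open Classical in
/-- witnesses for the subformulas of `ψ`, for the tuples of elements of `F` -/
noncomputable def sk (T : L.Structure Q) : {n : ℕ} → FmI L n → Finset Q → Set Q
  | _, .eq _ _, _ => ∅
  | _, .rel _ _, _ => ∅
  | _, .neg φ, F => sk T φ F
  | _, .conj φ, F => ⋃ k, sk T (φ k) F
  | n, .ex φ, F => sk T φ F ∪ ⋃ v : Fin n → F,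
      if h : ∃ a, Sat T φ (Fin.snoc (fun i => (v i : Q)) a) then {h.choose} else ∅

theorem sk_countable (T : L.Structure Q) {n : ℕ} (ψ : FmI L n) (F : Finset Q) :
    (sk T ψ F).Countable := by
  classical
  induction ψ with
  | eq i j => exact countable_empty
  | rel R w => exact countable_empty
  | neg φ ih => exact ih
  | conj φ ih => exact countable_iUnion ih
  | @ex n φ ih =>
    refine ih.union (countable_iUnion fun v => ?_)
    split_ifs
    · exact countable_singleton _
    · exact countable_empty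

/-- satisfaction in a substructure which contains the witnesses -/
theorem sk_sat {T : L.Structure Q} {T' : L.Structure Q'} {i : Q' → Q} (hi : Function.Injective i)
    (hr : ∀ (k : ℕ) (r : L.Relations k) (v : Fin k → Q'), T'.RelMap r v ↔ T.RelMap r (i ∘ v))
    {n : ℕ} (ψ : FmI L n) (hc : ∀ F : Finset Q, (F : Set Q) ⊆ range i → sk T ψ F ⊆ range i) :
    ∀ v : Fin n → Q', Sat T' ψ v ↔ Sat T ψ (i ∘ v) := by
  classical
  induction ψ with
  | eq a b => exact fun v => hi.eq_iff.symm
  | rel R w => exact fun v => hr _ R _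
  | neg φ ih => exact fun v => not_congr (ih hc v)
  | conj φ ih =>
    exact fun v => forall_congr' fun k => ih k
      (fun F hF => (subset_iUnion (fun k => sk T (φ k) F) k).trans (hc F hF)) v
  | @ex n φ ih =>
    intro v
    have ih' := ih (fun F hF => subset_union_left.trans (hc F hF))
    have hs : ∀ a', i ∘ (Fin.snoc v a' : Fin (n + 1) → Q') = Fin.snoc (i ∘ v) (i a') := by
      intro a'
      funext j
      refine Fin.lastCases ?_ (fun j => ?_) j
      · simp
      · simp
    constructor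
    · rintro ⟨a, ha⟩
      refine ⟨i a, ?_⟩
      rw [← hs]
      exact (ih' _).1 ha
    · intro hex
      have hF : ((Finset.univ.image (i ∘ v) : Finset Q) : Set Q) ⊆ range i := by
        intro x hx
        simp only [Finset.coe_image, Finset.coe_univ, image_univ] at hx
        obtain ⟨j, rfl⟩ := hx
        exact ⟨v j, rfl⟩
      have hm : ∀ j, (i ∘ v) j ∈ (Finset.univ.image (i ∘ v) : Finset Q) := fun j =>
        Finset.mem_image_of_mem _ (Finset.mem_univ j)
      have h1 : ∃ a, Sat T φ (Fin.snoc (fun j =>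
          ((⟨(i ∘ v) j, hm j⟩ : (Finset.univ.image (i ∘ v) : Finset Q)) : Q)) a) := hex
      have h2 : h1.choose ∈ sk T (FmI.ex φ) (Finset.univ.image (i ∘ v)) := by
        refine Or.inr (mem_iUnion.2 ⟨fun j => ⟨(i ∘ v) j, hm j⟩, ?_⟩)
        rw [dif_pos h1]
        exact mem_singleton _
      obtain ⟨a', ha'⟩ := hc _ hF h2
      refine ⟨a', (ih' _).2 ?_⟩
      rw [hs, ha']
      exact h1.choose_spec

end sk

/-! ### local failure of monotonicity -/

section mon

variable {R : Type} {M N : Type}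

/-- the conditions of `Sch.MonAt` for the elements of `G` -/
structure MonOn (θ : Sch R) (τ : M → M → Set R × Set R) (P : Set M) (c : Fin θ.n → P)
    (G : Set P) : Prop where
  refl : ∀ x ∈ G, θ.rel τ P c 0 x x
  anti : ∀ x ∈ G, ∀ y ∈ G, θ.rel τ P c 0 x y → θ.rel τ P c 0 y x → x = y
  trans : ∀ x ∈ G, ∀ y ∈ G, ∀ z ∈ G, θ.rel τ P c 0 x y → θ.rel τ P c 0 y z → θ.rel τ P c 0 x z
  total : ∀ x ∈ G, ∀ y ∈ G, θ.rel τ P c 0 x y ∨ θ.rel τ P c 0 y x
  mono : ∀ j, ∀ x' ∈ G, ∀ x ∈ G, ∀ y ∈ G, ∀ y' ∈ G, θ.rel τ P c 0 x' x → θ.rel τ P c j x y →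
    θ.rel τ P c 0 y y' → θ.rel τ P c j x' y'
  det : ∀ x ∈ G, ∀ y ∈ G, ∀ x' ∈ G, ∀ y' ∈ G, x ≠ y → x' ≠ y' →
    (∀ j, θ.un τ P c j x ↔ θ.un τ P c j x') →
    (∀ j, θ.un τ P c j y ↔ θ.un τ P c j y') → (∀ j, θ.rel τ P c j x y ↔ θ.rel τ P c j x' y') →
    (∀ j, θ.rel τ P c j y x ↔ θ.rel τ P c j y' x') → τ x y = τ x' y'

theorem MonOn.mono' {θ : Sch R} {τ : M → M → Set R × Set R} {P : Set M} {c : Fin θ.n → P}
    {G G' : Set P} (h : MonOn θ τ P c G') (hG : G ⊆ G') : MonOn θ τ P c G :=
  ⟨fun x hx => h.refl x (hG hx), fun x hx y hy => h.anti x (hG hx) y (hG hy),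
    fun x hx y hy z hz => h.trans x (hG hx) y (hG hy) z (hG hz),
    fun x hx y hy => h.total x (hG hx) y (hG hy),
    fun j x' hx' x hx y hy y' hy' => h.mono j x' (hG hx') x (hG hx) y (hG hy) y' (hG hy'),
    fun x hx y hy x' hx' y' hy' => h.det x (hG hx) y (hG hy) x' (hG hx') y' (hG hy')⟩

/-- monotonicity is a local property -/
theorem monAt_of_finite {θ : Sch R} {τ : M → M → Set R × Set R} {P : Set M} {c : Fin θ.n → P}
    (h : ∀ G : Finset P, MonOn θ τ P c (G : Set P)) : θ.MonAt τ P c := by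
  classical
  refine ⟨fun x => ?_, fun x y => ?_, fun x y z => ?_, fun x y => ?_, fun j x' x y y' => ?_,
    fun x y x' y' => ?_⟩
  · exact (h {x}).refl x (by simp)
  · exact (h {x, y}).anti x (by simp) y (by simp)
  · exact (h {x, y, z}).trans x (by simp) y (by simp) z (by simp)
  · exact (h {x, y}).total x (by simp) y (by simp)
  · exact (h {x', x, y, y'}).mono j x' (by simp) x (by simp) y (by simp) y' (by simp)
  · exact (h {x, y, x', y'}).det x (by simp) y (by simp) x' (by simp) y' (by simp)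

/-- transfer from a substructure -/
theorem monOn_of_monAt {θ : Sch R} {τ : M → M → Set R × Set R} {P : Set M}
    {τ' : N → N → Set R × Set R} {P' : Set N} {f : N → M} (i : P' → P)
    (hif : ∀ x : P', ((i x : P) : M) = f x) (hi : Function.Injective i)
    (hτ : ∀ x y, τ' x y = τ (f x) (f y)) {c' : Fin θ.n → P'}
    (hD : ∀ j (v : Fin (θ.n + 1 + 1) → P'), Sat (offd τ' P') (θ.D j) v ↔
      Sat (offd τ P) (θ.D j) (i ∘ v))
    (hU : ∀ j (v : Fin (θ.n + 1) → P'), Sat (offd τ' P') (θ.U j) v ↔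
      Sat (offd τ P) (θ.U j) (i ∘ v))
    (h : θ.MonAt τ' P' c') : MonOn θ τ P (i ∘ c') (range i) := by
  have hs1 : ∀ x : P', i ∘ (Fin.snoc c' x : Fin (θ.n + 1) → P') = Fin.snoc (i ∘ c') (i x) := by
    intro x
    funext j
    refine Fin.lastCases ?_ (fun j => ?_) j
    · simp
    · simp
  have hs2 : ∀ x y : P', i ∘ (Fin.snoc (Fin.snoc c' x : Fin (θ.n + 1) → P') y :
      Fin (θ.n + 1 + 1) → P') = Fin.snoc (Fin.snoc (i ∘ c') (i x) : Fin (θ.n + 1) → P) (i y) := by
    intro x y
    funext j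
    refine Fin.lastCases ?_ (fun j => ?_) j
    · simp
    · rw [← hs1]
      simp
  have hr : ∀ j x y, θ.rel τ P (i ∘ c') j (i x) (i y) ↔ θ.rel τ' P' c' j x y := by
    intro j x y
    unfold Sch.rel
    rw [← hs2]
    exact (hD j _).symm
  have hu : ∀ j x, θ.un τ P (i ∘ c') j (i x) ↔ θ.un τ' P' c' j x := by
    intro j x
    unfold Sch.un
    rw [← hs1]
    exact (hU j _).symm
  refine ⟨?_, ?_, ?_, ?_, ?_, ?_⟩
  · rintro _ ⟨x, rfl⟩
    exact (hr _ _ _).2 (h.refl x)
  · rintro _ ⟨x, rfl⟩ _ ⟨y, rfl⟩ h1 h2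
    rw [h.anti x y ((hr _ _ _).1 h1) ((hr _ _ _).1 h2)]
  · rintro _ ⟨x, rfl⟩ _ ⟨y, rfl⟩ _ ⟨z, rfl⟩ h1 h2
    exact (hr _ _ _).2 (h.trans x y z ((hr _ _ _).1 h1) ((hr _ _ _).1 h2))
  · rintro _ ⟨x, rfl⟩ _ ⟨y, rfl⟩
    rcases h.total x y with h1 | h1
    · exact Or.inl ((hr _ _ _).2 h1)
    · exact Or.inr ((hr _ _ _).2 h1)
  · rintro j _ ⟨x', rfl⟩ _ ⟨x, rfl⟩ _ ⟨y, rfl⟩ _ ⟨y', rfl⟩ h1 h2 h3
    exact (hr _ _ _).2 (h.mono j x' x y y' ((hr _ _ _).1 h1) ((hr _ _ _).1 h2) ((hr _ _ _).1 h3))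
  · rintro _ ⟨x, rfl⟩ _ ⟨y, rfl⟩ _ ⟨x', rfl⟩ _ ⟨y', rfl⟩ h1 h2 h3 h4 h5 h6
    have h7 := h.det x y x' y' (fun h0 => h1 (by rw [h0])) (fun h0 => h2 (by rw [h0]))
      (fun j => ((hu j x).symm.trans (h3 j)).trans (hu j x'))
      (fun j => ((hu j y).symm.trans (h4 j)).trans (hu j y'))
      (fun j => ((hr j x y).symm.trans (h5 j)).trans (hr j x' y'))
      (fun j => ((hr j y x).symm.trans (h6 j)).trans (hr j y' x'))
    rw [hτ, hτ] at h7
    rw [hif, hif, hif, hif]
    exact h7

end mon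

/-! ### the reflection -/

section FN

variable {L : FirstOrder.Language.{0, 0}} {M : Type}
  [∀ n, IsEmpty (L.Functions n)] [∀ n, Countable (L.Relations n)]
  {K : Set (L.Structure ℕ)} {δ : Ordinal.{0}} {S : L.Structure M}
  {lam : FmI L 2} {R : ℕ → FmI L 2} {U : ℕ → FmI L 1}

theorem monPrim_reflect (Θ : ℕ → Sch (MON.LT.Relations 2)) (hS : VSt K δ S)
    (h : ∀ T ∈ K, MonPrim Θ (theta lam R U T)) : MonPrim Θ (theta lam R U S) := by
  classical
  intro P hPinf hPrim
  by_contra hcon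
  rw [not_or] at hcon
  obtain ⟨hcon, hconk⟩ := hcon
  push Not at hcon hconk
  obtain ⟨η, hη, e1, e2, e3⟩ := exists_tlev lam R U
  obtain ⟨g1, hg1, hg1'⟩ := exists_prim_closure (N := ℕ) (bt (theta lam R U S)) hPrim
  let e := hPinf.natEmbedding
  -- witnesses of the failure of monotonicity
  have hfail : ∀ t, ∀ c : Fin (Θ t).n → P, ∃ G : Finset P,
      ¬ MonOn (Θ t) (bt (theta lam R U S)) P c (G : Set P) := by
    intro t c
    by_contra h0
    push Not at h0
    exact hconk t ⟨c, monAt_of_finite h0⟩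
  choose G hG using hfail
  -- the complete graphs
  have hch : ∀ b : Set (MON.LT.Relations 2), ∃ W : Set M, W.Countable ∧
      ∃ (v : ℕ → M) (Q : ℕ → ℕ → List M), Function.Injective v ∧
    (∀ i j, i < j → (v i :: (Q i j ++ [v j])).Nodup ∧
      List.IsChain (gr (theta lam R U S) P b).Adj (v i :: (Q i j ++ [v j]))) ∧
    (∀ i j k, i < j → v k ∉ Q i j) ∧
    (∀ i j i' j', i < j → i' < j' → (i, j) ≠ (i', j') → List.Disjoint (Q i j) (Q i' j')) ∧
    (∀ i, v i ∈ W) ∧ ∀ i j, ∀ x ∈ Q i j, x ∈ W := by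
    intro b
    obtain ⟨v, Q, h1, h2, h3, h4⟩ := hcon b
    refine ⟨range v ∪ ⋃ i, ⋃ j, {x | x ∈ Q i j}, ?_, v, Q, h1, h2, h3, h4, fun i => Or.inl ⟨i, rfl⟩,
      fun i j x hx => Or.inr ?_⟩
    · exact (countable_range v).union
        (countable_iUnion fun i => countable_iUnion fun j => (List.finite_toSet _).countable)
    · simp only [mem_iUnion]
      exact ⟨i, j, hx⟩
  choose W hW hW' using hch
  -- the closure
  let FP : Finset M → Finset P := fun F => F.subtype (· ∈ P)
  let gs : Finset M → Set M := fun F => Subtype.val '' (⋃ t, ⋃ j,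
    (sk (offd (bt (theta lam R U S)) P) ((Θ t).D j) (FP F) ∪
      sk (offd (bt (theta lam R U S)) P) ((Θ t).U j) (FP F)))
  let gm : Finset M → Set M := fun F => ⋃ t, ⋃ v : Fin (Θ t).n → FP F,
    Subtype.val '' ((G t (fun i => (v i : P)) : Finset P) : Set P)
  have hgs : ∀ F, (gs F).Countable := fun F => (countable_iUnion fun t => countable_iUnion
    fun j => (sk_countable _ _ _).union (sk_countable _ _ _)).image _
  have hgm : ∀ F, (gm F).Countable := fun F => countable_iUnion fun t => countable_iUnion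
    fun v => ((G t _).finite_toSet.image _).countable
  obtain ⟨f, hf, hfK, hfc, -, -, hsat⟩ := exists_reflect_sat hS hη
    (fun F => g1 F ∪ ((range (fun n => (e n : M)) ∪ (gs F ∪ gm F)) ∪
      ⋃ x ∈ F, ⋃ y ∈ F, W (bt (theta lam R U S) x y).1))
    (fun F => (hg1 F).union (((countable_range _).union ((hgs F).union (hgm F))).union
      ((F.finite_toSet.countable).biUnion fun x _ =>
        (F.finite_toSet.countable).biUnion fun y _ => hW _)))
  have hth : theta lam R U (pl S f) = pl (theta lam R U S) f := theta_pl e1 e2 e3 hsat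
  have hbt : (fun a b => bt (theta lam R U S) (f a) (f b)) =
      bt (pl (theta lam R U S) f) := by
    funext a b
    rw [bt_pl]
  have hprim : IsPrim (bt (pl (theta lam R U S) f)) (f ⁻¹' P) := by
    have := hg1' f hf (fun F hF x hx => hfc F hF (Or.inl hx))
    rwa [hbt] at this
  have hinf : (f ⁻¹' P).Infinite := by
    have hsub : range (fun n => (e n : M)) ⊆ range f := fun x hx =>
      hfc ∅ (by simp) (Or.inr (Or.inl (Or.inl hx)))
    intro hfin
    have h1 : (f '' (f ⁻¹' P)).Finite := hfin.image f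
    rw [image_preimage_eq_inter_range] at h1
    have h2 : (range (fun n => (e n : M))).Finite := h1.subset (by
      rintro _ ⟨n, rfl⟩
      exact ⟨(e n).2, hsub ⟨n, rfl⟩⟩)
    exact (infinite_range_of_injective (fun i j hij => e.injective (Subtype.ext hij))) h2
  have hh := h _ hfK
  rw [hth] at hh
  rcases hh _ hinf hprim with ⟨b, hb⟩ | ⟨t, c', hc'⟩
  · apply hb
    by_cases hocc : ∃ x ∈ f ⁻¹' P, ∃ y ∈ f ⁻¹' P, bt (pl (theta lam R U S) f) x y = (b, b)
    · obtain ⟨x, hx, y, hy, hxy⟩ := hocc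
      rw [bt_pl] at hxy
      obtain ⟨v, Q, h1, h2, h3, h4, h5, h6⟩ := hW' b
      have hWr : W b ⊆ range f := by
        intro w hw
        refine hfc {f x, f y} ?_ (Or.inr (Or.inr ?_))
        · intro a ha
          simp only [Finset.coe_insert, Finset.coe_singleton, mem_insert_iff,
            mem_singleton_iff] at ha
          rcases ha with rfl | rfl
          · exact mem_range_self _
          · exact mem_range_self _
        · simp only [mem_iUnion]
          refine ⟨f x, by simp, f y, by simp, ?_⟩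
          rw [hxy]
          exact hw
      refine hasTK_pull (G := gr (theta lam R U S) P b) hf ?_ h1 h2 h3 h4 (fun i => hWr (h5 i))
        (fun i j x hx => hWr (h6 i j x hx))
      rintro x' y' ⟨hne, hx', hy', hbt'⟩
      refine ⟨fun h => hne (by rw [h]), hx', hy', ?_⟩
      rw [bt_pl]
      exact hbt'
    · push Not at hocc
      refine hasTK_of_complete hinf fun x hx y hy hxy => ⟨hxy, hx, hy, hocc x hx y hy⟩
  · -- the elements of the substructure
    let i : (f ⁻¹' P : Set ℕ) → P := fun x => ⟨f x, x.2⟩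
    have hi : Function.Injective i := by
      intro x y hxy
      have h1 : f x = f y := congrArg Subtype.val hxy
      exact Subtype.ext (hf h1)
    have hir : ∀ a : P, (a : M) ∈ range f → a ∈ range i := by
      rintro a ⟨y, hy⟩
      exact ⟨⟨y, by rw [mem_preimage, hy]; exact a.2⟩, Subtype.ext hy⟩
    have hFr : ∀ F : Finset P, (F : Set P) ⊆ range i →
        (((F.map ⟨Subtype.val, Subtype.val_injective⟩ : Finset M) : Set M) ⊆ range f) ∧
        FP (F.map ⟨Subtype.val, Subtype.val_injective⟩) = F := by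
      intro F hF
      constructor
      · intro x hx
        rw [Finset.coe_map] at hx
        obtain ⟨a, ha, rfl⟩ := hx
        obtain ⟨y, rfl⟩ := hF ha
        exact ⟨y, rfl⟩
      · ext a
        simp only [FP, Finset.mem_subtype, Finset.mem_map, Function.Embedding.coeFn_mk]
        constructor
        · rintro ⟨b, hb, hab⟩
          rwa [← Subtype.ext hab]
        · exact fun ha => ⟨a, ha, rfl⟩
    have hcl : ∀ t j, (∀ F : Finset P, (F : Set P) ⊆ range i →
        sk (offd (bt (theta lam R U S)) P) ((Θ t).D j) F ⊆ range i) ∧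
        ∀ F : Finset P, (F : Set P) ⊆ range i →
        sk (offd (bt (theta lam R U S)) P) ((Θ t).U j) F ⊆ range i := by
      intro t j
      constructor
      · intro F hF a ha
        obtain ⟨h1, h2⟩ := hFr F hF
        refine hir a (hfc _ h1 (Or.inr (Or.inl (Or.inr (Or.inl ⟨a, ?_, rfl⟩)))))
        rw [h2]
        exact mem_iUnion.2 ⟨t, mem_iUnion.2 ⟨j, Or.inl ha⟩⟩
      · intro F hF a ha
        obtain ⟨h1, h2⟩ := hFr F hF
        refine hir a (hfc _ h1 (Or.inr (Or.inl (Or.inr (Or.inl ⟨a, ?_, rfl⟩)))))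
        rw [h2]
        exact mem_iUnion.2 ⟨t, mem_iUnion.2 ⟨j, Or.inr ha⟩⟩
    have hτ : ∀ x y, bt (pl (theta lam R U S) f) x y =
        bt (theta lam R U S) (f x) (f y) := fun x y => by rw [bt_pl]
    have hrel : ∀ (k : ℕ) (r : (binL (MON.LT.Relations 2)).Relations k)
        (v : Fin k → (f ⁻¹' P : Set ℕ)),
        (offd (bt (pl (theta lam R U S) f)) (f ⁻¹' P)).RelMap r v ↔
          (offd (bt (theta lam R U S)) P).RelMap r (i ∘ v) := by
      intro k r v
      match k, r with
      | 0, r => exact nomatch r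
      | 1, r => exact nomatch r
      | 2, r =>
        show (v 0 ≠ v 1 ∧ r ∈ (bt (pl (theta lam R U S) f) (v 0) (v 1)).1) ↔
          (i (v 0) ≠ i (v 1) ∧ r ∈ (bt (theta lam R U S) (f (v 0)) (f (v 1))).1)
        rw [hτ, hi.ne_iff]
      | (k + 3), r => exact nomatch r
    have hmon := monOn_of_monAt (τ := bt (theta lam R U S)) (P := P) i (fun x => rfl) hi hτ
      (fun j v => sk_sat hi hrel ((Θ t).D j) (hcl t j).1 v)
      (fun j v => sk_sat hi hrel ((Θ t).U j) (hcl t j).2 v) hc'
    refine hG t (i ∘ c') (hmon.mono' fun a ha => ?_)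
    have hF : ((Finset.univ.image (i ∘ c') : Finset P) : Set P) ⊆ range i := by
      intro x hx
      simp only [Finset.coe_image, Finset.coe_univ, image_univ] at hx
      obtain ⟨j, rfl⟩ := hx
      exact ⟨c' j, rfl⟩
    obtain ⟨h1, h2⟩ := hFr _ hF
    have hm : ∀ j, (i ∘ c') j ∈ FP ((Finset.univ.image (i ∘ c')).map
        ⟨Subtype.val, Subtype.val_injective⟩) := by
      intro j
      rw [h2]
      exact Finset.mem_image_of_mem _ (Finset.mem_univ j)
    refine hir a (hfc _ h1 (Or.inr (Or.inl (Or.inr (Or.inr ?_)))))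
    refine mem_iUnion.2 ⟨t, mem_iUnion.2 ⟨fun j => ⟨(i ∘ c') j, hm j⟩, ⟨a, ha, rfl⟩⟩⟩

end FN

end Pool.Agent.MOP
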