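import Pool.Agent.MOP.TRXm
import Pool.Agent.MOP.RFLm

/-!
# The final theorem: primitive parts which are sparse or monotone
-/

set_option autoImplicit false
set_option linter.unusedSectionVars false
set_option linter.unusedVariables false

namespace Pool.Agent.MOP

open Set Pool.Agent.Helper5 Pool.Agent.Helper5.DU Pool.Agent.Helper6.Str
  Pool.Agent.Helper79.VC Pool.Agent.Helper97.VC Pool.Agent.Helper97.MD Pool.Agent.Helper6.VC
  Pool.Agent.Helper97.LO Pool.Agent.MON

variable {L : FirstOrder.Language.{0, 0}} {M N P : Type}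

theorem dichotomy_of_monPrim (hc : Countable L.Symbols) (hrel : ∀ n, IsEmpty (L.Functions n))
    (T : L.Theory) (φ : FmI L 0) (lam : FmI L 2) (R : ℕ → FmI L 2) (U : ℕ → FmI L 1)
    (Θ : ℕ → Sch (LT.Relations 2))
    (h : ∀ S : L.Structure ℕ, IsMod T φ S →
      AtomDet lam R U S ∧ MonPrim Θ (theta lam R U S)) :
    (∃ g : ℕ → L.Structure ℕ, ∀ S : L.Structure ℕ, IsMod T φ S →
        ∃ n : ℕ, Nonempty (@FirstOrder.Language.Equiv L ℕ ℕ S (g n))) ∨
    (∃ f : (ℕ → Bool) → L.Structure ℕ,
        (∀ x : ℕ → Bool, IsMod T φ (f x)) ∧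
        (∀ x y : ℕ → Bool,
            Nonempty (@FirstOrder.Language.Equiv L ℕ ℕ (f x) (f y)) → x = y) ∧
        (∀ (n : ℕ) (R : L.Relations n) (a : Fin n → ℕ),
            IsClopen {x : ℕ → Bool | @FirstOrder.Language.Structure.RelMap L ℕ (f x) n R a})) := by
  have hcr : ∀ n, Countable (L.Relations n) := countable_relations hc
  refine dichotomy_of_large hc hrel T φ fun M S δ hS hN => ?_
  have hA : AtomDet lam R U S := atomDet_reflect hS.lev fun T hT => (h T hT).1
  obtain ⟨K', δ', hV⟩ := vst_theta hS hA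
  have hM : MonPrim Θ (theta lam R U S) := monPrim_reflect Θ hS fun T hT => (h T hT).2
  exact not_noCtblType_of_theta hA (tree_mon lt_ar2 hV hM) hN

end Pool.Agent.MOP
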